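import Pool.Agent.W_448pb_h63.PbA

/-!
Per class identities at the window j (MP_448cb3_co, case B): the crude count of the bad elements of
a label.
-/

namespace Pool.Agent.GaussPoset.Win.K2

set_option linter.unusedSectionVars false

open Finset I2

universe u

variable {P : Type u} [Fintype P] [PartialOrder P] [DecidableEq P] {r i : ℕ} {e : P → ℕ}

variable {ι : Type*} [DecidableEq ι] {κ : P → ι} {K : Finset P} {psi : P → P}

/-- the count of the bad elements and of the full sites of a label is at most its excitation and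
the number of the exceptional elements -/
theorem crude_loc (H : Gr P r) (hir : i ≤ r) (hq : NoQ P (i + 2))
    (hg : ∀ m, m + 1 = i → Good P m) (hκ : Split (i + 1) κ) (hM : Mat P i K psi) {a : ι}
    (hd : Disjoint (AL i e) (AU i e)) {XL XU : Finset P}
    (hXL : ∀ x ∈ XL, lev x = i ∧ 1 ≤ e x ∧ (∃ y, y ∈ dc x) ∧
        ∀ y ∈ dc x, y ∈ bL i e ∧ ∃ z ∈ dc y, 1 ≤ e z)
    (hXU : ∀ x ∈ XU, lev x = i ∧ 1 ≤ e x ∧ (∃ y, y ∈ uc x) ∧
        ∀ y ∈ uc x, y ∈ bU i e ∧ ∃ z ∈ uc y, 1 ≤ e z) :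
    ((KB i K e).filter (fun x => κ x = a)).card + (XL.filter (fun x => κ x = a)).card +
      (XU.filter (fun x => κ x = a)).card ≤
      ∑ x ∈ (lv P i).filter (fun x => κ x = a), e x + (K.filter (fun x => κ x = a)).card := by
  classical
  have hlab : ∀ {k x : P}, k ∈ bN i e → x ∈ ns i k → κ x = κ k := fun hk hx =>
    ns_lab H hir hq hg hκ hk hx
  have bLN : ∀ y ∈ bL i e, y ∈ bN i e := fun y hy => mem_union_left _ hy
  have bUN : ∀ y ∈ bU i e, y ∈ bN i e := fun y hy => mem_union_right _ hy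
  have Q1 : ∀ y ∈ bL i e, y ∉ K → ∀ x ∈ ns i y, psi y ∈ uc x ∧ ns i (psi y) = ns i y := by
    intro y hy hyK x hx
    obtain ⟨k1, k2, -, k4, -, -⟩ := bL_data H hir hq hg hy
    obtain ⟨p1, p2, -, p4⟩ := psi_low hM (mem_dbL'.2 ⟨k1, k2⟩) hyK
    have hl := mem_dbU'.1 p1
    rw [k4] at hx
    refine ⟨?_, ?_⟩
    · rw [mem_uc, ← mem_dc, p2]
      exact hx
    · rw [k4, ← p2]
      unfold ns
      rw [if_neg (by omega)]
  obtain ⟨XA, hXA⟩ : ∃ XA : Finset P, XA = XL.filter (fun x => κ x = a) := ⟨_, rfl⟩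
  obtain ⟨YA, hYA⟩ : ∃ YA : Finset P, YA = XU.filter (fun x => κ x = a) := ⟨_, rfl⟩
  have mXA : ∀ {x : P}, x ∈ XA ↔ x ∈ XL ∧ κ x = a := by intro x; rw [hXA, mem_filter]
  have mYA : ∀ {x : P}, x ∈ YA ↔ x ∈ XU ∧ κ x = a := by intro x; rw [hYA, mem_filter]
  rw [← hXA, ← hYA]
  have hUn : ∀ x ∈ XA ∪ YA, (lev x = i ∧ 1 ≤ e x) ∧ κ x = a := by
    intro x hx
    rcases mem_union.1 hx with h | h
    · have h := mXA.1 h
      exact ⟨⟨(hXL x h.1).1, (hXL x h.1).2.1⟩, h.2⟩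
    · have h := mYA.1 h
      exact ⟨⟨(hXU x h.1).1, (hXU x h.1).2.1⟩, h.2⟩
  have hsum : (XA ∪ YA).card ≤ ∑ x ∈ (lv P i).filter (fun x => κ x = a), e x := by
    rw [Finset.card_eq_sum_ones]
    refine le_trans (Finset.sum_le_sum (g := fun x => e x) fun x hx => (hUn x hx).1.2) ?_
    exact Finset.sum_le_sum_of_subset fun x hx =>
      mem_filter.2 ⟨mem_lv.2 (hUn x hx).1.1, (hUn x hx).2⟩
  have hcu := Finset.card_union_add_card_inter XA YA
  -- the element below a doubly full site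
  have hYx : ∀ x ∈ XA ∩ YA, ∃ y ∈ (K.filter (fun x => κ x = a)) \
      ((KB i K e).filter (fun x => κ x = a)), x ∈ ns i y ∧ ∃ s, e s = 0 ∧
        (∀ t ∈ ns i y, t = x ∨ t = s) := by
    intro x hx
    rw [mem_inter, mXA, mYA] at hx
    obtain ⟨l1, x1, ⟨y, hy⟩, hxL⟩ := hXL x hx.1.1
    obtain ⟨-, -, -, hxU⟩ := hXU x hx.2.1
    obtain ⟨hyb, z, hz, hz1⟩ := hxL y hy
    obtain ⟨y1, -, -, y4, -, -⟩ := bL_data H hir hq hg hyb
    have hxy : x ∈ ns i y := by rw [y4]; exact mem_uc.2 (mem_dc.1 hy)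
    have hyK : y ∈ K := by
      by_contra hyK
      obtain ⟨q1, q3⟩ := Q1 y hyb hyK x hxy
      have h5 := (hxU _ q1).1
      refine bad_ns_ne H hir hq hg hd (bUN _ h5) (bLN y hyb) ?_ q3
      intro h6
      have h7 := (bU_data H hir hq hg h5).1
      rw [h6] at h7
      omega
    obtain ⟨s, -, ha0, hay⟩ := bad_two H hir hq hg (bLN y hyb) hxy x1
    have hya : κ y = a := by rw [← hlab (bLN y hyb) hxy, hx.1.2]
    refine ⟨y, ?_, hxy, s, ha0, hay⟩
    rw [mem_sdiff, mem_filter, mem_filter, mem_KB]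
    refine ⟨⟨hyK, hya⟩, ?_⟩
    rintro ⟨⟨-, h⟩, -⟩
    rcases h with ⟨-, h0⟩ | ⟨h0, -⟩
    · have := h0 z hz
      omega
    · have h7 := (bU_data H hir hq hg h0).1
      omega
  have hinj : (XA ∩ YA).card ≤ ((K.filter (fun x => κ x = a)) \
      ((KB i K e).filter (fun x => κ x = a))).card := by
    refine Finset.card_le_card_of_forall_subsingleton (fun x y => x ∈ ns i y ∧ ∃ s, e s = 0 ∧
        (∀ t ∈ ns i y, t = x ∨ t = s)) hYx ?_
    rintro y - x ⟨hx, h1, s, hs, h2⟩ x' ⟨hx', h1', s', hs', h2'⟩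
    have x1 := (hUn x (mem_union_left _ (mem_inter.1 hx).1)).1.2
    have x1' := (hUn x' (mem_union_left _ (mem_inter.1 hx').1)).1.2
    rcases h2 x' h1' with h | h
    · exact h.symm
    · rw [h] at x1'
      omega
  have hsub : (KB i K e).filter (fun x => κ x = a) ⊆ K.filter (fun x => κ x = a) := by
    intro k hk
    rw [mem_filter, mem_KB] at hk
    exact mem_filter.2 ⟨hk.1.1, hk.2⟩
  have h3 := Finset.card_sdiff_add_card_eq_card hsub
  omega

end Pool.Agent.GaussPoset.Win.K2
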