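import Pool.Agent.W_448L2_h10.CrA
import Pool.Agent.W_448so_h63.GJ
import Pool.Agent.W_448ua_h10.UaA

/-!
Per class identities at the window j (MP_448cb3_co, case B): the count of the bad elements of a
label with two stars, and the own series of such a label.
-/

namespace Pool.Agent.GaussPoset.Win.K2

set_option linter.unusedSectionVars false

open Finset I2

universe u

variable {P : Type u} [Fintype P] [PartialOrder P] [DecidableEq P] {r i : ℕ} {e : P → ℕ}

variable {ι : Type*} [DecidableEq ι] {κ : P → ι} {K : Finset P} {psi : P → P}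

/-- two stars of unmatched elements -/
structure Star2 (i : ℕ) (C K : Finset P) : Prop where
  card : (K.filter (fun x => x ∈ C)).card ≤ 4
  two : ∀ k ∈ K, k ∈ C → ∀ k' ∈ K, k' ∈ C → ∀ k'' ∈ K, k'' ∈ C → k ≠ k' → k ≠ k'' → k' ≠ k'' →
    ∃ x, (x ∈ ns i k ∧ x ∈ ns i k') ∨ (x ∈ ns i k ∧ x ∈ ns i k'') ∨ (x ∈ ns i k' ∧ x ∈ ns i k'')
  three : ∀ k ∈ K, k ∈ C → ∀ k' ∈ K, k' ∈ C → ∀ k'' ∈ K, k'' ∈ C → k ≠ k' → k ≠ k'' → k' ≠ k'' →
    ∀ x, x ∈ ns i k → x ∈ ns i k' → x ∈ ns i k'' →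
    ns i k = ns i k' ∨ ns i k = ns i k'' ∨ ns i k' = ns i k''

/-- the count of the bad elements of a label with two stars -/
theorem two_loc (H : Gr P r) (hir : i ≤ r) (hq : NoQ P (i + 2))
    (hg : ∀ m, m + 1 = i → Good P m) (hκ : Split (i + 1) κ) (hM : Mat P i K psi) {a : ι}
    (hK : Star2 i (cext (i + 1) κ a) K)
    (hd : Disjoint (AL i e) (AU i e)) {XL XU : Finset P}
    (hXL : ∀ x ∈ XL, lev x = i ∧ 1 ≤ e x ∧ (∃ y, y ∈ dc x) ∧
        ∀ y ∈ dc x, y ∈ bL i e ∧ ∃ z ∈ dc y, 1 ≤ e z)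
    (hXU : ∀ x ∈ XU, lev x = i ∧ 1 ≤ e x ∧ (∃ y, y ∈ uc x) ∧
        ∀ y ∈ uc x, y ∈ bU i e ∧ ∃ z ∈ uc y, 1 ≤ e z) :
    ((KB i K e).filter (fun x => κ x = a)).card + (XL.filter (fun x => κ x = a)).card +
      (XU.filter (fun x => κ x = a)).card ≤
      2 * ∑ x ∈ (lv P i).filter (fun x => κ x = a), e x + 2 := by
  classical
  have hC : ∀ y, y ∈ bN i e → κ y = a → y ∈ cext (i + 1) κ a := by
    intro y hy hk
    exact mem_cext_of_le hκ (lev_bN H hir hq hg hy) hk
  have hKB : ∀ k ∈ (KB i K e).filter (fun x => κ x = a),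
      k ∈ K ∧ k ∈ cext (i + 1) κ a ∧ k ∈ bN i e ∧ κ k = a := by
    intro k hk
    rw [mem_filter, mem_KB] at hk
    have h1 : k ∈ bN i e := by
      unfold bN
      rcases hk.1.2 with h | h
      · exact mem_union_left _ h.1
      · exact mem_union_right _ h.1
    exact ⟨hk.1.1, hC k h1 hk.2, h1, hk.2⟩
  have hlab : ∀ {k x : P}, k ∈ bN i e → x ∈ ns i k → κ x = κ k := fun hk hx =>
    ns_lab H hir hq hg hκ hk hx
  -- elements of `KB` are not next to full sites of their side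
  have P1 : ∀ x ∈ XL, ∀ k ∈ KB i K e, x ∈ ns i k → k ∈ bU i e ∧ k ∈ uc x := by
    intro x hx k hk hxk
    obtain ⟨l1, -, -, hx2⟩ := hXL x hx
    rw [mem_KB] at hk
    rcases hk.2 with ⟨h, h0⟩ | ⟨h, h0⟩
    · obtain ⟨k1, -, -, k4, -, -⟩ := bL_data H hir hq hg h
      rw [k4] at hxk
      obtain ⟨z, hz, hz1⟩ := (hx2 k (mem_dc.2 (mem_uc.1 hxk))).2
      have := h0 z hz
      omega
    · obtain ⟨k1, -, -, k4, -, -⟩ := bU_data H hir hq hg h
      rw [k4] at hxk
      exact ⟨h, mem_uc.2 (mem_dc.1 hxk)⟩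
  have P2 : ∀ x ∈ XU, ∀ k ∈ KB i K e, x ∈ ns i k → k ∈ bL i e ∧ k ∈ dc x := by
    intro x hx k hk hxk
    obtain ⟨l1, -, -, hx2⟩ := hXU x hx
    rw [mem_KB] at hk
    rcases hk.2 with ⟨h, h0⟩ | ⟨h, h0⟩
    · obtain ⟨k1, -, -, k4, -, -⟩ := bL_data H hir hq hg h
      rw [k4] at hxk
      exact ⟨h, mem_dc.2 (mem_uc.1 hxk)⟩
    · obtain ⟨k1, -, -, k4, -, -⟩ := bU_data H hir hq hg h
      rw [k4] at hxk
      obtain ⟨z, hz, hz1⟩ := (hx2 k (mem_uc.2 (mem_dc.1 hxk))).2
      have := h0 z hz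
      omega
  -- the partner of a matched element
  have Q1 : ∀ y ∈ bL i e, y ∉ K → ∀ x ∈ ns i y, psi y ∈ uc x ∧ psi y ∉ K ∧
      ns i (psi y) = ns i y := by
    intro y hy hyK x hx
    obtain ⟨k1, k2, -, k4, -, -⟩ := bL_data H hir hq hg hy
    obtain ⟨p1, p2, -, p4⟩ := psi_low hM (mem_dbL'.2 ⟨k1, k2⟩) hyK
    have hl := mem_dbU'.1 p1
    rw [k4] at hx
    refine ⟨?_, p4, ?_⟩
    · rw [mem_uc, ← mem_dc, p2]
      exact hx
    · rw [k4, ← p2]
      unfold ns
      rw [if_neg (by omega)]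
  have Q2 : ∀ y ∈ bU i e, y ∉ K → ∀ x ∈ ns i y, psi y ∈ dc x ∧ psi y ∉ K ∧
      ns i (psi y) = ns i y := by
    intro y hy hyK x hx
    obtain ⟨k1, k2, -, k4, -, -⟩ := bU_data H hir hq hg hy
    obtain ⟨p1, p2, -, p4⟩ := psi_up hM (mem_dbU'.2 ⟨k1, k2⟩) hyK
    have hl := mem_dbL'.1 p1
    rw [k4] at hx
    refine ⟨?_, p4, ?_⟩
    · rw [mem_dc, ← mem_uc, p2]
      exact hx
    · rw [k4, ← p2]
      unfold ns
      rw [if_pos (by omega)]
  have bLN : ∀ y ∈ bL i e, y ∈ bN i e := fun y hy => mem_union_left _ hy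
  have bUN : ∀ y ∈ bU i e, y ∈ bN i e := fun y hy => mem_union_right _ hy
  -- a labelled common site of two elements of `KB` is not full
  have R1 : ∀ k ∈ (KB i K e).filter (fun x => κ x = a),
      ∀ k' ∈ (KB i K e).filter (fun x => κ x = a), k ≠ k' → ∀ q, q ∈ ns i k → q ∈ ns i k' →
      q ∉ XL := by
    intro k hk k' hk' hne q hqk hqk' hqX
    obtain ⟨u1, u2⟩ := P1 q hqX k (mem_filter.1 hk).1 hqk
    obtain ⟨u1', u2'⟩ := P1 q hqX k' (mem_filter.1 hk').1 hqk'
    have hqa : κ q = a := by rw [hlab (hKB k hk).2.2.1 hqk, (hKB k hk).2.2.2]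
    obtain ⟨lq, -, ⟨y, hy⟩, hyq⟩ := hXL q hqX
    have hyb := (hyq y hy).1
    obtain ⟨y1, y2, -, y4, -, -⟩ := bL_data H hir hq hg hyb
    have hqy : q ∈ ns i y := by
      rw [y4]
      exact mem_uc.2 (mem_dc.1 hy)
    have hluk := (bU_data H hir hq hg u1).1
    have hluk' := (bU_data H hir hq hg u1').1
    have hyK : y ∈ K := by
      by_contra hyK
      obtain ⟨q1, q2, q3⟩ := Q1 y hyb hyK q hqy
      have h2 : ({k, k', psi y} : Finset P) ⊆ uc q := by
        intro s hs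
        rw [mem_insert, mem_insert, mem_singleton] at hs
        rcases hs with rfl | rfl | rfl <;> assumption
      have h3 := card_le_card h2
      have h4 := uc_card_le H q
      rw [card_insert_of_notMem, card_pair] at h3
      · omega
      · rintro rfl
        exact q2 (hKB _ hk').1
      · rw [mem_insert, mem_singleton]
        rintro (h5 | h5)
        · exact hne h5
        · rw [← h5] at q2
          exact q2 (hKB _ hk).1
    have hyk : y ≠ k := by rintro rfl; omega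
    have hyk' : y ≠ k' := by rintro rfl; omega
    have hya : κ y = a := by rw [← hlab (bLN y hyb) hqy, hqa]
    rcases hK.three y hyK (hC y (bLN y hyb) hya) k (hKB k hk).1 (hKB k hk).2.1 k' (hKB k' hk').1
      (hKB k' hk').2.1 hyk hyk' hne q hqy hqk hqk' with h | h | h
    · exact bad_ns_ne H hir hq hg hd (bLN y hyb) (hKB k hk).2.2.1 hyk h
    · exact bad_ns_ne H hir hq hg hd (bLN y hyb) (hKB k' hk').2.2.1 hyk' h
    · exact bad_ns_ne H hir hq hg hd (hKB k hk).2.2.1 (hKB k' hk').2.2.1 hne h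
  have R2 : ∀ k ∈ (KB i K e).filter (fun x => κ x = a),
      ∀ k' ∈ (KB i K e).filter (fun x => κ x = a), k ≠ k' → ∀ q, q ∈ ns i k → q ∈ ns i k' →
      q ∉ XU := by
    intro k hk k' hk' hne q hqk hqk' hqX
    obtain ⟨u1, u2⟩ := P2 q hqX k (mem_filter.1 hk).1 hqk
    obtain ⟨u1', u2'⟩ := P2 q hqX k' (mem_filter.1 hk').1 hqk'
    have hqa : κ q = a := by rw [hlab (hKB k hk).2.2.1 hqk, (hKB k hk).2.2.2]
    obtain ⟨lq, -, ⟨y, hy⟩, hyq⟩ := hXU q hqX
    have hyb := (hyq y hy).1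
    obtain ⟨y1, y2, -, y4, -, -⟩ := bU_data H hir hq hg hyb
    have hqy : q ∈ ns i y := by
      rw [y4]
      exact mem_dc.2 (mem_uc.1 hy)
    have hluk := (bL_data H hir hq hg u1).1
    have hluk' := (bL_data H hir hq hg u1').1
    have hyK : y ∈ K := by
      by_contra hyK
      obtain ⟨q1, q2, q3⟩ := Q2 y hyb hyK q hqy
      have h2 : ({k, k', psi y} : Finset P) ⊆ dc q := by
        intro s hs
        rw [mem_insert, mem_insert, mem_singleton] at hs
        rcases hs with rfl | rfl | rfl <;> assumption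
      have h3 := card_le_card h2
      have h4 := dc_card_le H q
      rw [card_insert_of_notMem, card_pair] at h3
      · omega
      · rintro rfl
        exact q2 (hKB _ hk').1
      · rw [mem_insert, mem_singleton]
        rintro (h5 | h5)
        · exact hne h5
        · rw [← h5] at q2
          exact q2 (hKB _ hk).1
    have hyk : y ≠ k := by rintro rfl; omega
    have hyk' : y ≠ k' := by rintro rfl; omega
    have hya : κ y = a := by rw [← hlab (bUN y hyb) hqy, hqa]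
    rcases hK.three y hyK (hC y (bUN y hyb) hya) k (hKB k hk).1 (hKB k hk).2.1 k' (hKB k' hk').1
      (hKB k' hk').2.1 hyk hyk' hne q hqy hqk hqk' with h | h | h
    · exact bad_ns_ne H hir hq hg hd (bUN y hyb) (hKB k hk).2.2.1 hyk h
    · exact bad_ns_ne H hir hq hg hd (bUN y hyb) (hKB k' hk').2.2.1 hyk' h
    · exact bad_ns_ne H hir hq hg hd (hKB k hk).2.2.1 (hKB k' hk').2.2.1 hne h
  -- sets of labelled sites
  have hsum : ∀ S : Finset P, (∀ x ∈ S, (lev x = i ∧ 1 ≤ e x) ∧ κ x = a) →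
      S.card ≤ ∑ x ∈ (lv P i).filter (fun x => κ x = a), e x := by
    intro S hS
    rw [Finset.card_eq_sum_ones]
    refine le_trans (Finset.sum_le_sum (g := fun x => e x) fun x hx => (hS x hx).1.2) ?_
    exact Finset.sum_le_sum_of_subset fun x hx =>
      mem_filter.2 ⟨mem_lv.2 (hS x hx).1.1, (hS x hx).2⟩
  obtain ⟨XA, hXA⟩ : ∃ XA : Finset P, XA = XL.filter (fun x => κ x = a) := ⟨_, rfl⟩
  obtain ⟨YA, hYA⟩ : ∃ YA : Finset P, YA = XU.filter (fun x => κ x = a) := ⟨_, rfl⟩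
  have mXA : ∀ {x : P}, x ∈ XA ↔ x ∈ XL ∧ κ x = a := by intro x; rw [hXA, mem_filter]
  have mYA : ∀ {x : P}, x ∈ YA ↔ x ∈ XU ∧ κ x = a := by intro x; rw [hYA, mem_filter]
  rw [← hXA, ← hYA]
  have hA : ∀ x ∈ XA, (lev x = i ∧ 1 ≤ e x) ∧ κ x = a := by
    intro x hx
    have h := mXA.1 hx
    exact ⟨⟨(hXL x h.1).1, (hXL x h.1).2.1⟩, h.2⟩
  have hB : ∀ x ∈ YA, (lev x = i ∧ 1 ≤ e x) ∧ κ x = a := by
    intro x hx
    have h := mYA.1 hx
    exact ⟨⟨(hXU x h.1).1, (hXU x h.1).2.1⟩, h.2⟩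
  have h4 : ((KB i K e).filter (fun x => κ x = a)).card ≤ 4 := by
    refine le_trans (card_le_card ?_) hK.card
    intro k hk
    exact mem_filter.2 ⟨(hKB k hk).1, (hKB k hk).2.1⟩
  rcases Nat.lt_or_ge ((KB i K e).filter (fun x => κ x = a)).card 3 with h2 | h2
  · have a1 := hsum _ hA
    have a2 := hsum _ hB
    omega
  · obtain ⟨k, k', k'', hk, hk', hk'', h5, h6, h7⟩ := Finset.two_lt_card_iff.1
      (show 2 < ((KB i K e).filter (fun x => κ x = a)).card by omega)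
    have key : ∀ k ∈ (KB i K e).filter (fun x => κ x = a),
        ∀ k' ∈ (KB i K e).filter (fun x => κ x = a), k ≠ k' → ∀ q, q ∈ ns i k → q ∈ ns i k' →
        ((lev q = i ∧ 1 ≤ e q) ∧ κ q = a) ∧ q ∉ XA ∧ q ∉ YA := by
      intro k hk k' hk' hne q q1 q2
      obtain ⟨a1, a2, a3, a4⟩ := hKB k hk
      obtain ⟨b1, b2, b3, -⟩ := hKB k' hk'
      have e1 := bad_disj H hir hq hg hd a3 b3 hne q1 q2
      refine ⟨⟨⟨(bN_data H hir hq hg a3).2.2.2 q q1, by omega⟩, by rw [hlab a3 q1, a4]⟩, ?_, ?_⟩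
      · intro h
        exact R1 k hk k' hk' hne q q1 q2 (mXA.1 h).1
      · intro h
        exact R2 k hk k' hk' hne q q1 q2 (mYA.1 h).1
    obtain ⟨q, q1, q2, q3⟩ : ∃ q, ((lev q = i ∧ 1 ≤ e q) ∧ κ q = a) ∧ q ∉ XA ∧ q ∉ YA := by
      obtain ⟨q, hq3⟩ := hK.two k (hKB k hk).1 (hKB k hk).2.1 k' (hKB k' hk').1 (hKB k' hk').2.1
        k'' (hKB k'' hk'').1 (hKB k'' hk'').2.1 h5 h6 h7
      rcases hq3 with ⟨g1, g2⟩ | ⟨g1, g2⟩ | ⟨g1, g2⟩
      · exact ⟨q, key k hk k' hk' h5 q g1 g2⟩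
      · exact ⟨q, key k hk k'' hk'' h6 q g1 g2⟩
      · exact ⟨q, key k' hk' k'' hk'' h7 q g1 g2⟩
    have a1 := hsum (insert q XA) (by
      intro x hx
      rcases mem_insert.1 hx with rfl | h
      · exact q1
      · exact hA x h)
    have a2 := hsum (insert q YA) (by
      intro x hx
      rcases mem_insert.1 hx with rfl | h
      · exact q1
      · exact hB x h)
    rw [card_insert_of_notMem q2] at a1
    rw [card_insert_of_notMem q3] at a2
    omega

section ord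

variable (H : Gr P r) (hir : i ≤ r) (hq : NoQ P (i + 2)) (hg : ∀ m, m + 1 = i → Good P m)
include H hir hq hg

/-- ORDER BOUND with a set of far or single elements and the labels of the sites -/
theorem ord_le_sites (hL : AdmL i e) (hU : AdmU i e) {D : Finset P}
    (hD : ∀ x ∈ D, 1 ≤ e x ∧ Dp i x) :
    (AL i e).card + (AU i e).card + D.card + ∑ x ∈ lv P i, e x ≤
      ∑ x, e x + (pL i e + pU i e) := by
  classical
  have h1 := sum_ch H hir hq hg hL hU
  have h2 : ∑ x, ch i e x ≤ ∑ x, (2 * (e x : ℤ) - (if x ∈ D then 2 else 0) -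
      (if x ∈ lv P i then 2 * (e x : ℤ) else 0)) := by
    refine Finset.sum_le_sum fun x _ => ?_
    by_cases hs : x ∈ lv P i
    · have hx := mem_lv.1 hs
      have hxD : x ∉ D := by
        intro h
        have h3 := (hD x h).2
        unfold Dp at h3
        omega
      rw [if_neg hxD, if_pos hs]
      unfold ch
      rw [if_neg (by omega), if_neg (by omega)]
      linarith
    · rw [if_neg hs]
      split_ifs with h
      · have := (ch_le_D H hir hq hg hL (hD x h).1 (hD x h).2).1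
        linarith
      · have := ch_le H hir hq hg (e := e) x
        linarith
  rw [h1, Finset.sum_sub_distrib, Finset.sum_sub_distrib, ← Finset.mul_sum, Finset.sum_ite_mem,
    univ_inter, Finset.sum_const, nsmul_eq_mul, Finset.sum_ite_mem, univ_inter,
    ← Finset.mul_sum] at h2
  have h3 : ((∑ x, e x : ℕ) : ℤ) = ∑ x, (e x : ℤ) := by push_cast; rfl
  have h4 : ((∑ x ∈ lv P i, e x : ℕ) : ℤ) = ∑ x ∈ lv P i, (e x : ℤ) := by push_cast; rfl
  rw [← h3, ← h4] at h2
  omega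

end ord

lemma sum_lv_split (e : P → ℕ) :
    ∑ x, e x = ∑ x ∈ lS P i, e x + ∑ x ∈ uS P i, e x + ∑ x ∈ lv P i, e x := by
  classical
  have h6 : (univ : Finset P) = (lS P i ∪ uS P i) ∪ lv P i := by
    ext x
    simp only [mem_univ, mem_union, mem_lS, mem_uS, mem_lv, true_iff]
    omega
  rw [h6, Finset.sum_union, Finset.sum_union]
  · rw [disjoint_left]
    intro x hx hx'
    rw [mem_lS] at hx
    rw [mem_uS] at hx'
    omega
  · rw [disjoint_left]
    intro x hx hx'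
    rw [mem_union, mem_lS, mem_uS] at hx
    rw [mem_lv] at hx'
    omega

/-- THE INEQUALITY OF SLOPE TWO THIRDS for a configuration in one label -/
theorem slope_own_lab (H : Gr P r) (hir : i ≤ r) (hq : NoQ P (i + 2))
    (hg : ∀ m, m + 1 = i → Good P m) (hκ : Split (i + 1) κ) (hM : Mat P i K psi) {a : ι} {c : ℕ}
    (hK : ∀ XL XU : Finset P,
      (∀ x ∈ XL, lev x = i ∧ 1 ≤ e x ∧ (∃ y, y ∈ dc x) ∧
        ∀ y ∈ dc x, y ∈ bL i e ∧ ∃ z ∈ dc y, 1 ≤ e z) →
      (∀ x ∈ XU, lev x = i ∧ 1 ≤ e x ∧ (∃ y, y ∈ uc x) ∧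
        ∀ y ∈ uc x, y ∈ bU i e ∧ ∃ z ∈ uc y, 1 ≤ e z) →
      ((KB i K e).filter (fun x => κ x = a)).card + (XL.filter (fun x => κ x = a)).card +
      (XU.filter (fun x => κ x = a)).card ≤
      2 * ∑ x ∈ (lv P i).filter (fun x => κ x = a), e x + c)
    (hs : Spt (cext (i + 1) κ a) e)
    (hL : AdmL i e) (hU : AdmU i e) (hd : Disjoint (AL i e) (AU i e)) :
    3 * ((AL i e).card + (AU i e).card) ≤
      2 * (∑ x, e x) + 3 * (pL i e + pU i e) + 3 * (SK i K psi e).card + c := by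
  classical
  obtain ⟨XL, XU, hXL, hXU, h1⟩ := main_K hM H hir hq hg hL hU hd (δ := 0) (Or.inl rfl)
  have h2 := hK XL XU hXL hXU
  have hk : ∀ x, lev x ≤ i + 1 → 1 ≤ e x → κ x = a := by
    intro x hx h0
    have h3 : x ∈ cext (i + 1) κ a := by
      by_contra h3
      have := hs x h3
      omega
    exact (mem_cext.1 h3) x le_rfl hx
  have hKB : (KB i K e).filter (fun x => κ x = a) = KB i K e := by
    refine filter_true_of_mem fun k hk' => ?_
    rw [mem_KB] at hk'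
    have h4 : k ∈ bN i e := by
      unfold bN
      rcases hk'.2 with h | h
      · exact mem_union_left _ h.1
      · exact mem_union_right _ h.1
    exact hk k (lev_bN H hir hq hg h4) (by have := (bN_data H hir hq hg h4).2.1; omega)
  have hXLT : XL.filter (fun x => κ x = a) = XL := by
    refine filter_true_of_mem fun x hx => ?_
    obtain ⟨l1, l2, -, -⟩ := hXL x hx
    exact hk x (by omega) l2
  have hXUT : XU.filter (fun x => κ x = a) = XU := by
    refine filter_true_of_mem fun x hx => ?_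
    obtain ⟨l1, l2, -, -⟩ := hXU x hx
    exact hk x (by omega) l2
  rw [hKB, hXLT, hXUT] at h2
  have h5 : ∑ x ∈ (lv P i).filter (fun x => κ x = a), e x ≤ ∑ x ∈ lv P i, e x :=
    Finset.sum_le_sum_of_subset (filter_subset _ _)
  have h6 := sum_lv_split (i := i) e
  have h7 := ord_le_sites H hir hq hg hL hU (D := ∅) (by simp)
  rw [card_empty] at h7
  omega

/-- divisibility and a nonzero coefficient -/
lemma coeff_dd_dvd {N m : ℕ} {f : A} (h : dd ^ N ∣ f) (hm : PowerSeries.coeff m f ≠ 0) : N ≤ m := by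
  unfold dd at h
  by_contra hc
  exact hm ((PowerSeries.X_pow_dvd_iff.1 h) m (by omega))

/-- THE OWN SERIES of a label whose count is at most `2 s + c` -/
theorem own_slope (H : Gr P r) (hir : i ≤ r) (hq : NoQ P (i + 2))
    (hg : ∀ m, m + 1 = i → Good P m) (hκ : Split (i + 1) κ) (hM : Mat P i K psi) {a : ι} {c : ℕ}
    (hK : ∀ e : P → ℕ, Disjoint (AL i e) (AU i e) → ∀ XL XU : Finset P,
      (∀ x ∈ XL, lev x = i ∧ 1 ≤ e x ∧ (∃ y, y ∈ dc x) ∧
        ∀ y ∈ dc x, y ∈ bL i e ∧ ∃ z ∈ dc y, 1 ≤ e z) →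
      (∀ x ∈ XU, lev x = i ∧ 1 ≤ e x ∧ (∃ y, y ∈ uc x) ∧
        ∀ y ∈ uc x, y ∈ bU i e ∧ ∃ z ∈ uc y, 1 ≤ e z) →
      ((KB i K e).filter (fun x => κ x = a)).card + (XL.filter (fun x => κ x = a)).card +
      (XU.filter (fun x => κ x = a)).card ≤
      2 * ∑ x ∈ (lv P i).filter (fun x => κ x = a), e x + c) {n m : ℕ}
    (hne : PowerSeries.coeff m (PowerSeries.coeff n (ZS i (cext (i + 1) κ a))) ≠ 0) :
    6 * (st i (cext (i + 1) κ a)).card ≤ 4 * n + 6 * m + 2 * c := by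
  have hC : Part (i + 1) (cext (i + 1) κ a) := part_cext H le_rfl hκ a
  have key : dd ^ ((st i (cext (i + 1) κ a)).card - (2 * n + c) / 3) ∣
      PowerSeries.coeff n (ZS i (cext (i + 1) κ a)) := by
    rw [coeff_ZS]
    unfold ZC
    refine class_dvd hM H ?_ ?_
    · intro e he y hy
      rw [mem_pa'] at he ⊢
      exact ⟨by rw [sum_sw]; exact he.1, spt_sw hM H hC he.2 hy⟩
    · intro e he
      rw [mem_pa'] at he
      refine tC_dvd fun hL hU hd => ?_
      have h1 := slope_own_lab H hir hq hg hκ hM (hK e hd) he.2 hL hU hd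
      rw [he.1] at h1
      omega
  have h2 := coeff_dd_dvd key hne
  omega

/-- the own series of a label with two stars -/
theorem own_two (H : Gr P r) (hir : i ≤ r) (hq : NoQ P (i + 2))
    (hg : ∀ m, m + 1 = i → Good P m) (hκ : Split (i + 1) κ) (hM : Mat P i K psi) {a : ι}
    (hK : Star2 i (cext (i + 1) κ a) K) {n m : ℕ}
    (hne : PowerSeries.coeff m (PowerSeries.coeff n (ZS i (cext (i + 1) κ a))) ≠ 0) :
    6 * (st i (cext (i + 1) κ a)).card ≤ 4 * n + 6 * m + 4 :=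
  own_slope H hir hq hg hκ hM (c := 2) (fun _ hd _ _ hXL hXU =>
    two_loc H hir hq hg hκ hM hK hd hXL hXU) hne

/-- the own series of a label with at most `c` unmatched elements -/
theorem own_crude (H : Gr P r) (hir : i ≤ r) (hq : NoQ P (i + 2))
    (hg : ∀ m, m + 1 = i → Good P m) (hκ : Split (i + 1) κ) (hM : Mat P i K psi) {a : ι} {c : ℕ}
    (hK : (K.filter (fun x => κ x = a)).card ≤ c) {n m : ℕ}
    (hne : PowerSeries.coeff m (PowerSeries.coeff n (ZS i (cext (i + 1) κ a))) ≠ 0) :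
    6 * (st i (cext (i + 1) κ a)).card ≤ 4 * n + 6 * m + 2 * c :=
  own_slope H hir hq hg hκ hM (fun e hd XL XU hXL hXU => by
    have := crude_loc H hir hq hg hκ hM hd hXL hXU (a := a)
    omega) hne

end Pool.Agent.GaussPoset.Win.K2
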