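import Pool.Agent.W_448L2_h10.CrB
import Pool.Agent.W_448cl_h64.CnB

/-!
Per class identities at the window j (MP_448cb3_co, case B): the own series of a label with two
stars, in the coefficient form.
-/

namespace Pool.Agent.GaussPoset

set_option linter.unusedSectionVars false

open Finset Win Win.I2

universe u

variable {P : Type u} [Fintype P] [PartialOrder P] [DecidableEq P] {r i : ℕ}

variable {ι : Type*} [DecidableEq ι] {κ : P → ι} {K : Finset P} {psi : P → P}

/-- THE OWN SERIES of a label with the cap `c` -/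
theorem Win.K2.own_cap (H : Gr P r) (hir : i ≤ r) (hq : Win.K2.NoQ P (i + 2))
    (hg : ∀ m, m + 1 = i → Win.Good P m) (hκ : Split (i + 1) κ) (hM : Mat P i K psi) {a : ι} {c : ℕ}
    (hC : ∀ e : P → ℕ, Disjoint (AL i e) (AU i e) → Win.K2.Cap i κ K e a c) {n m : ℕ}
    (hne : PowerSeries.coeff m (PowerSeries.coeff n (ZS i (cext (i + 1) κ a))) ≠ 0) :
    6 * (st i (cext (i + 1) κ a)).card ≤ 4 * n + 6 * m + 2 * c :=
  Win.K2.own_slope H hir hq hg hκ hM (fun e hd XL XU hXL hXU => hC e hd XL XU hXL hXU) hne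

/-- THE OWN SERIES of a label with two stars -/
theorem EK.Row.own_six {m : ℕ} {x : ℕ → P} {c : ℕ → ℤ} {β : ℤ} {a : ι}
    (W : EK.Row i κ a m x c β) (R : EK.Red P i K psi) (H : Gr P r) (hir : i ≤ r)
    (hq : Win.K2.NoQ P (i + 2)) (hg : ∀ m, m + 1 = i → Win.Good P m) (hκ : Split (i + 1) κ)
    (hp : EK.Pat6 m c β) {n k : ℕ}
    (hne : PowerSeries.coeff k (PowerSeries.coeff n (ZS i (cext (i + 1) κ a))) ≠ 0) :
    6 * (st i (cext (i + 1) κ a)).card ≤ 4 * n + 6 * k + 4 :=
  Win.K2.own_cap H hir hq hg hκ R.mat (c := 2)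
    (fun _ hd => W.cap6 R H hir hq hg hκ hp hd) hne

end Pool.Agent.GaussPoset
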